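import Pool.Agent.N375.AV.D
import Pool.Agent.Y854.AB.Count

/-!
# `T(a, b, c)` is negative for all the abc-triples with a member near functions of the values of additive functions

Let `F = f_1 ∘ ⋯ ∘ f_k` be a composition of functions dominated by the largest prime factor (`PD`), for example the sum of
the prime factors with or without multiplicity, the largest prime factor, or Kempner's function. Let `α > 0`,
`1 ≤ d < 28 / 15` and `θ < 1 - 15 d / 28`. For all `m ≤ N` but `K N exp (- c (log N)^(1/(k+1)))`, EVERY abc-triple with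
`|c - α F(m)^d| ≤ F(m)^θ` has `T(a, b, c) < 0`, that is `rad(abc) > c`. More generally `T(a, b, c) < - η √(log c) - K / √(log c)`
for every `0 ≤ η < 7 / 9` and every `K`, that is `rad(abc) > e^K c^(1 + η)`, when `15 / 28` is replaced by an explicit
exponent `f (η) < 1`. The same holds for the triples with a member `n` in the window and `c ≤ n ^ A`, with `A f(η)` instead
of `f (η)`. More generally `G (F m)` takes the place of `α F(m)^d`, where `G` is any function with steps bounded below by a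
positive constant and growth at most `v^d`. The values of `F` are in general much smaller than `m` and are taken with very
large multiplicities, and so this does not follow from the size of the exceptional set.

The size of the exceptional set is bounded by the count used in the starting file `SequenceMembers` of this problem
(`Y854.AB.Count`). The tool for the values of `F` is by helper375 (`N375.AV`).
-/

set_option autoImplicit false

namespace Pool.Agent.Results.MP_4ab349_nt.AdditiveValues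

open Finset
open Pool.Agent.N733.TG (Expanding expanding_pow)
open Pool.Agent.N375.AV (PD comp win_nat pd_additive pd_sopfr pd_largest pd_kempner)

/-- the product of the primes dividing `n` -/
def rad (n : ℕ) : ℕ := ∏ p ∈ n.primeFactors, p

/-- `T(a, b, c) = log (c / rad(abc)) / √(log c)` -/
noncomputable def T (a b c : ℕ) : ℝ :=
  Real.log ((c : ℝ) / (rad (a * b * c) : ℝ)) / Real.sqrt (Real.log c)

/-- increasing from `15 / 28` for `η = 0` to `1` for `η = 7 / 9`: equal to `5 (10 η + 9) / 84` for `η ≤ 1 / 2` and to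
`(9 η + 8) / 15` for `η > 1 / 2` -/
noncomputable def f (η : ℝ) : ℝ := if η ≤ 1 / 2 then 5 * (10 * η + 9) / 84 else (9 * η + 8) / 15

/-- every abc-triple `(a, b, a + b)` with `a + b ≤ n ^ A` one of whose members is `n` satisfies
`T(a, b, a + b) < - η √(log (a + b)) - K / √(log (a + b))` -/
def Good (A η K : ℝ) (n : ℕ) : Prop :=
  ∀ a b : ℕ, 0 < a → 0 < b → Nat.Coprime a b → (a = n ∨ b = n ∨ a + b = n) →
    ((a + b : ℕ) : ℝ) ≤ (n : ℝ) ^ A →
      T a b (a + b) < - η * Real.sqrt (Real.log ((a + b : ℕ) : ℝ)) - K / Real.sqrt (Real.log ((a + b : ℕ) : ℝ))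

lemma Fx_eq (η : ℝ) (h0 : 0 ≤ η) (h1 : η < 7 / 9) : Pool.Agent.W221.ABC7.Fx (1 + η) = f η := by
  unfold Pool.Agent.W221.ABC7.Fx f
  rcases h0.eq_or_lt with h | h
  · subst h
    norm_num
  · rw [if_neg (show ¬ (1 + η ≤ 2 / 3) by linarith), if_neg (show ¬ (1 + η ≤ 1) by linarith)]
    by_cases h2 : η ≤ 1 / 2
    · rw [if_pos (show 1 + η ≤ 3 / 2 by linarith), if_pos h2]
      ring
    · rw [if_neg (show ¬ (1 + η ≤ 3 / 2) by linarith), if_pos (show 1 + η ≤ 16 / 9 by linarith), if_neg h2]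
      ring

lemma f_nonneg (η : ℝ) (h0 : 0 ≤ η) : 0 ≤ f η := by
  unfold f
  split_ifs <;> positivity

lemma rad_pos (n : ℕ) : 0 < rad n :=
  Finset.prod_pos fun _ hp => (Nat.prime_of_mem_primeFactors hp).pos

lemma good_of (A η K : ℝ) (m : ℕ) (h : m ∉ Pool.Agent.Y854.AB.Bad (Real.exp K) (1 + η) A) : Good A η K m := by
  intro a b ha hb hab hmem hht
  have hc2 : 2 ≤ a + b := by omega
  have hc : (1 : ℝ) < ((a + b : ℕ) : ℝ) := by exact_mod_cast (by omega : 1 < a + b)
  have hc0 : (0 : ℝ) < ((a + b : ℕ) : ℝ) := by linarith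
  have hl : 0 < Real.log ((a + b : ℕ) : ℝ) := Real.log_pos hc
  have hs : 0 < Real.sqrt (Real.log ((a + b : ℕ) : ℝ)) := Real.sqrt_pos.mpr hl
  have hr : (0 : ℝ) < (rad (a * b * (a + b)) : ℝ) := by exact_mod_cast rad_pos _
  have hbig : Real.exp K * ((a + b : ℕ) : ℝ) ^ (1 + η) < (rad (a * b * (a + b)) : ℝ) := by
    by_contra hcon
    push Not at hcon
    exact h ⟨a, b, ha, hb, hab, hmem, hht, hcon⟩
  have h1 := Real.log_lt_log (by positivity) hbig
  rw [Real.log_mul (Real.exp_pos K).ne' (Real.rpow_pos_of_pos hc0 _).ne', Real.log_exp,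
    Real.log_rpow hc0] at h1
  unfold T
  rw [Real.log_div hc0.ne' hr.ne', div_lt_iff₀ hs]
  have hss : Real.sqrt (Real.log ((a + b : ℕ) : ℝ)) * Real.sqrt (Real.log ((a + b : ℕ) : ℝ)) =
      Real.log ((a + b : ℕ) : ℝ) := Real.mul_self_sqrt hl.le
  have h2 : (-η * Real.sqrt (Real.log ((a + b : ℕ) : ℝ)) - K / Real.sqrt (Real.log ((a + b : ℕ) : ℝ))) *
      Real.sqrt (Real.log ((a + b : ℕ) : ℝ)) = -η * Real.log ((a + b : ℕ) : ℝ) - K := by
    rw [sub_mul, div_mul_cancel₀ _ hs.ne', mul_assoc, hss]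
  rw [h2]
  linarith

/-- **`T < 0` near the values of compositions of additive functions.** Let `F = f_1 ∘ ⋯ ∘ f_k` with functions `f_i`
dominated by the largest prime factor. Let `G` have steps `≥ a > 0` and growth at most `v^d`. Let
`A ≥ 1`, `0 ≤ η < 7 / 9`, `θ ≥ 0` and `d A f(η) + θ < 1` (for `A = 1`, `η = 0`: `15 d / 28 + θ < 1`). For every `L` there are
`c > 0` and `K` such that for every `N ≥ 1`, for all `m ≤ N` but at most `K N exp (- c (log N)^(1/(k+1)))`, EVERY abc-triple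
with a member `n`, `|n - G (F m)| ≤ F(m)^θ`, and `c ≤ n ^ A` satisfies `T(a, b, c) < - η √(log c) - L / √(log c)`.
The additive functions with `f (q^j) ≤ C q^j` at the prime powers which are injective at the large primes are
dominated by the largest prime factor; so are the sum of the prime factors with multiplicity, the largest prime factor and
Kempner's function; and `α v^d` with `α > 0`, `d ≥ 1` is an example of `G`. -/
theorem result :
    (∀ fs : List (ℕ → ℕ), (∀ g ∈ fs, PD g) → ∀ (G : ℕ → ℝ) (d : ℝ), Expanding G d →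
      ∀ A η θ : ℝ, 1 ≤ A → 0 ≤ η → η < 7 / 9 → 0 ≤ θ →
      d * (A * f η) + θ < 1 → ∀ L : ℝ, ∃ c K : ℝ, 0 < c ∧ ∀ N : ℕ, 1 ≤ N →
      ({m : ℕ | 1 ≤ m ∧ m ≤ N ∧
        ¬ ∀ n : ℕ, |(n : ℝ) - G (comp fs m)| ≤ (comp fs m : ℝ) ^ θ → Good A η L n}.ncard : ℝ) ≤
        K * N * Real.exp (-(c * Real.log N ^ ((1 : ℝ) / (fs.length + 1))))) ∧
    ((∀ g : ℕ → ℕ, (∀ a b : ℕ, Nat.Coprime a b → g (a * b) = g a + g b) →
        (∃ C : ℕ, ∀ q j : ℕ, q.Prime → 1 ≤ j → g (q ^ j) ≤ C * q ^ j) →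
        (∃ P : ℕ, ∀ p q : ℕ, p.Prime → q.Prime → P ≤ p → P ≤ q → g p = g q → p = q) → PD g) ∧
      PD (fun n => n.primeFactorsList.sum) ∧ PD (fun n => n.primeFactors.sup id) ∧
      PD (fun n => sInf {k : ℕ | n ∣ k.factorial})) ∧
    ∀ α d : ℝ, 0 < α → 1 ≤ d → Expanding (fun v => α * (v : ℝ) ^ d) d := by
  classical
  refine ⟨fun fs hfs G d hG A η θ hA hη hη1 hθ h1 L => ?_, ⟨fun g h1 h2 h3 => pd_additive h1 h2 h3,
    pd_sopfr, pd_largest, pd_kempner⟩, fun α d hα hd => expanding_pow hα hd⟩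
  obtain ⟨c, K, hc, hK⟩ := win_nat (Pool.Agent.Y854.AB.Bad (Real.exp L) (1 + η) A) fs hfs hG (s := A * f η) (κ := θ)
    (mul_nonneg (by linarith) (f_nonneg η hη)) hθ h1 (fun ε hε => by
      obtain ⟨C, hC⟩ := Pool.Agent.Y854.AB.count (Real.exp L) (1 + η) A (by linarith) (by linarith) ε hε
      refine ⟨C, fun X hX => ?_⟩
      have h2 := hC X hX
      rw [Fx_eq η hη hη1] at h2
      convert h2 using 2)
  refine ⟨c, K, hc, fun N hN => le_trans ?_ (hK N hN)⟩
  have hfin : {m : ℕ | 1 ≤ m ∧ m ≤ N ∧ ∃ n : ℕ, (n = 0 ∨ n ∈ Pool.Agent.Y854.AB.Bad (Real.exp L) (1 + η) A) ∧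
      |(n : ℝ) - G (comp fs m)| ≤ (comp fs m : ℝ) ^ θ}.Finite := by
    apply (Set.finite_Icc 1 N).subset
    intro m hm
    exact ⟨hm.1, hm.2.1⟩
  have hsub : {m : ℕ | 1 ≤ m ∧ m ≤ N ∧
      ¬ ∀ n : ℕ, |(n : ℝ) - G (comp fs m)| ≤ (comp fs m : ℝ) ^ θ → Good A η L n} ⊆
      {m : ℕ | 1 ≤ m ∧ m ≤ N ∧ ∃ n : ℕ, (n = 0 ∨ n ∈ Pool.Agent.Y854.AB.Bad (Real.exp L) (1 + η) A) ∧
        |(n : ℝ) - G (comp fs m)| ≤ (comp fs m : ℝ) ^ θ} := by
    rintro m ⟨h2, h3, h4⟩
    push Not at h4
    obtain ⟨n, h5, h6⟩ := h4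
    refine ⟨h2, h3, n, Or.inr ?_, h5⟩
    by_contra h7
    exact h6 (good_of A η L n h7)
  exact_mod_cast Set.ncard_le_ncard hsub hfin

end Pool.Agent.Results.MP_4ab349_nt.AdditiveValues
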