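import Mathlib
import Pool.Agent.R479.DA.Exact

/-!
# Real numbers with many approximations whose abc-triple has a large `T`: the exact dimension

A fraction `p / q` in lowest terms in `(0, 1)` gives the abc-triple `(p, q - p, q)`. Let `BadSet η K τ`
be the set of the real numbers `ξ` with infinitely many such fractions with `|ξ - p / q| ≤ q ^ (-τ)` and
`T(p, q - p, q) ≥ - η √(log q) - K / √(log q)`, that is `rad (abc) ≤ exp K * c ^ (1 + η)`. Its dimension
is at least `min 1 (η / τ)` for `0 < η ≤ 2`, and equal to it for `1 ≤ η ≤ 2`. So the upper bound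
`f (η) / τ` of `Approximations` (`f (η) = η` for `1 ≤ η ≤ 2`) is attained. For `η' < η ≤ 2` almost every
number of the interval `(0, 1)` is in `BadSet η K η'`; for `1 ≤ η ≤ 2` and `τ > η` almost no number is in
`BadSet η K τ`.

The theorems are from the library (`Pool.Agent.R479.DA`, helper479): fractions whose denominator is
divisible by a large power of two, and the mass transference principle.
-/

set_option autoImplicit false

namespace Pool.Agent.Results.MP_4ab349_nt.ExactDimension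

open Filter Topology MeasureTheory

/-- the product of the primes dividing `n` -/
def rad (n : ℕ) : ℕ := ∏ p ∈ n.primeFactors, p

/-- `T(a, b, c) = log (c / rad(abc)) / √(log c)` -/
noncomputable def T (a b c : ℕ) : ℝ :=
  Real.log ((c : ℝ) / (rad (a * b * c) : ℝ)) / Real.sqrt (Real.log c)

/-- the fraction `t.1 / t.2` in lowest terms and in `(0, 1)` approximates `ξ` with exponent `τ` -/
def Approximates (τ ξ : ℝ) (t : ℕ × ℕ) : Prop :=
  0 < t.1 ∧ t.1 < t.2 ∧ Nat.Coprime t.1 t.2 ∧ |ξ - (t.1 : ℝ) / t.2| ≤ (t.2 : ℝ) ^ (-τ)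

/-- the abc-triple `(p, q - p, q)` of the fraction `p / q = t.1 / t.2` satisfies
`T ≥ - η √(log q) - K / √(log q)` -/
def Bad (η K : ℝ) (t : ℕ × ℕ) : Prop :=
  - η * Real.sqrt (Real.log t.2) - K / Real.sqrt (Real.log t.2) ≤ T t.1 (t.2 - t.1) t.2

/-- the real numbers with infinitely many approximations of exponent `τ` with
`T ≥ - η √(log q) - K / √(log q)` -/
def BadSet (η K τ : ℝ) : Set ℝ := {ξ | {t : ℕ × ℕ | Approximates τ ξ t ∧ Bad η K t}.Infinite}

lemma rad_pos (n : ℕ) : 0 < rad n :=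
  Finset.prod_pos fun _ hp => (Nat.prime_of_mem_primeFactors hp).pos

lemma bad_iff {p q : ℕ} (h1 : 0 < p) (h2 : p < q) (η K : ℝ) :
    Bad η K (p, q) ↔ (rad (p * q * (q - p)) : ℝ) ≤ Real.exp K * (q : ℝ) ^ (1 + η) := by
  have hq : (1 : ℝ) < (q : ℝ) := by exact_mod_cast (by omega : 1 < q)
  have hq0 : (0 : ℝ) < (q : ℝ) := by linarith
  have hl : 0 < Real.log (q : ℝ) := Real.log_pos hq
  have hs : 0 < Real.sqrt (Real.log (q : ℝ)) := Real.sqrt_pos.mpr hl
  have hss : Real.sqrt (Real.log (q : ℝ)) * Real.sqrt (Real.log (q : ℝ)) =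
      Real.log (q : ℝ) := Real.mul_self_sqrt hl.le
  have hr : (0 : ℝ) < (rad (p * q * (q - p)) : ℝ) := by exact_mod_cast rad_pos _
  have e1 : p * (q - p) * q = p * q * (q - p) := by ring
  unfold Bad T
  simp only
  rw [e1, Real.log_div hq0.ne' hr.ne', le_div_iff₀ hs, sub_mul, div_mul_cancel₀ _ hs.ne', mul_assoc,
    hss, ← Real.log_le_log_iff hr (by positivity),
    Real.log_mul (Real.exp_pos K).ne' (Real.rpow_pos_of_pos hq0 _).ne', Real.log_exp,
    Real.log_rpow hq0]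
  constructor <;> intro h <;> linarith

lemma badSet_eq (η K τ : ℝ) : BadSet η K τ = Pool.Agent.R479.DA.WW (Real.exp K) (1 + η) τ := by
  ext ξ
  unfold BadSet Pool.Agent.R479.DA.WW
  simp only [Set.mem_ofPred_eq]
  have h : {t : ℕ × ℕ | Approximates τ ξ t ∧ Bad η K t} =
      {t | t ∈ Pool.Agent.R479.DA.Sm (Real.exp K) (1 + η) ∧
        |ξ - (t.1 : ℝ) / t.2| ≤ (t.2 : ℝ) ^ (-τ)} := by
    ext ⟨p, q⟩
    simp only [Set.mem_ofPred_eq, Approximates, Pool.Agent.R479.DA.Sm]
    constructor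
    · rintro ⟨⟨h1, h2, h3, h4⟩, h5⟩
      exact ⟨⟨h1, h2, h3, (bad_iff h1 h2 η K).1 h5⟩, h4⟩
    · rintro ⟨⟨h1, h2, h3, h5⟩, h4⟩
      exact ⟨⟨h1, h2, h3, h4⟩, (bad_iff h1 h2 η K).2 h5⟩
  rw [h]

/-- a set of dimension less than one is a null set -/
lemma null_of_dim {E : Set ℝ} {d : ℝ} (hd : d < 1) (h : dimH E ≤ ENNReal.ofReal d) :
    volume E = 0 := by
  have h1 : dimH E < 1 := lt_of_le_of_lt h (by
    rw [show (1 : ENNReal) = ENNReal.ofReal 1 by simp]
    exact (ENNReal.ofReal_lt_ofReal_iff one_pos).2 hd)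
  have h2 : MeasureTheory.Measure.hausdorffMeasure ((1 : NNReal) : ℝ) E = 0 :=
    hausdorffMeasure_of_dimH_lt (by simpa using h1)
  rw [NNReal.coe_one, MeasureTheory.hausdorffMeasure_real] at h2
  exact h2

/-- **Theorem.** (1) For `0 < η ≤ 2`, `τ > 0` and real `K` the set `BadSet η K τ` has Hausdorff dimension
at least `min 1 (η / τ)`.
(2) For `1 ≤ η ≤ 2`, `τ > 0` and real `K` its dimension is equal to `min 1 (η / τ)`.
(3) For `0 < τ < η ≤ 2` and real `K` almost every number of the interval `(0, 1)` is in `BadSet η K τ`.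
(4) For `1 ≤ η ≤ 2`, `τ > η` and real `K` almost every real number is not in `BadSet η K τ`. -/
theorem result :
    (∀ η K τ : ℝ, 0 < η → η ≤ 2 → 0 < τ →
      ENNReal.ofReal (min 1 (η / τ)) ≤ dimH (BadSet η K τ)) ∧
    (∀ η K τ : ℝ, 1 ≤ η → η ≤ 2 → 0 < τ →
      dimH (BadSet η K τ) = ENNReal.ofReal (min 1 (η / τ))) ∧
    (∀ η K τ : ℝ, 0 < τ → τ < η → η ≤ 2 →
      ∀ᵐ ξ : ℝ, ξ ∈ Set.Ioo (0 : ℝ) 1 → ξ ∈ BadSet η K τ) ∧
    (∀ η K τ : ℝ, 1 ≤ η → η ≤ 2 → η < τ → ∀ᵐ ξ : ℝ, ξ ∉ BadSet η K τ) := by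
  have h2 : ∀ η K τ : ℝ, 1 ≤ η → η ≤ 2 → 0 < τ →
      dimH (BadSet η K τ) = ENNReal.ofReal (min 1 (η / τ)) := by
    intro η K τ h1 h2 h3
    rw [badSet_eq, Pool.Agent.R479.DA.dim_exact (by linarith) (by linarith) (Real.exp_pos K) h3]
    congr 3
    ring
  refine ⟨fun η K τ h1 h2 h3 => ?_, h2, fun η K τ h1 h2 h3 => ?_, fun η K τ h1 h3 h4 => ?_⟩
  · rw [badSet_eq]
    refine le_trans (le_of_eq ?_)
      (Pool.Agent.R479.DA.dim_ge (by linarith) (by linarith) (Real.exp_pos K) h3)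
    congr 3
    ring
  · have h4 := Pool.Agent.R479.DA.ae_approx2 (lam := 1 + η) (lam' := 1 + τ) (B := Real.exp K)
      (by linarith) (by linarith) (by linarith) (Real.exp_pos K)
    filter_upwards [h4] with ξ hξ hI
    rw [badSet_eq]
    refine Pool.Agent.R479.DA.mem_WW_of_frequently ((hξ hI).mono ?_)
    rintro q ⟨p, h5, h6⟩
    refine ⟨p, h5, h6.le.trans (le_of_eq ?_)⟩
    congr 2
    ring
  · have h5 := h2 η K τ h1 h3 (by linarith)
    have h6 : volume (BadSet η K τ) = 0 := by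
      refine null_of_dim (d := η / τ) ?_ ?_
      · rw [div_lt_one (by linarith)]
        exact h4
      · rw [h5]
        exact ENNReal.ofReal_le_ofReal (min_le_right _ _)
    exact measure_eq_zero_iff_ae_notMem.1 h6

end Pool.Agent.Results.MP_4ab349_nt.ExactDimension
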