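import Mathlib
import Pool.Agent.N906.LD.ShF

/-!
# Small radicals: the exact number of the abc triples with `rad(abc) ≤ c ^ (3 - κ - u / √(log c · log log c))`

For `K = ℚ`, `x = a / c` with `0 < x < 1` (take `z = η = 1/2`) the elements `x` are the abc triples `(a, b, c)`, `b / c = 1 - x`, the height
is `log c`, and `N(x) = cond(x) + cond(1/x) + cond(x - 1) = log rad(abc)`. In general `K` is a number field of degree `d`, and
`x` is in a given polydisc in the product of the completions at the infinite places.

Let `0 < κ < 1` and let `u` and `c₀` be real numbers. The number `V(B)` of the `x` of height at most `B` with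

  `N(x) ≤ (3 - κ) h(x) - u √(h(x) / log h(x)) + c₀`

satisfies `log V(B) = d (2 - κ) log B + (√(24 κ d) - d u + o(1)) √(log B / log log B)`.

So the number of the abc triples with `c ≤ B` and `rad(abc) ≤ C c^(3 - κ) exp(-u √(log c / log log c))` is
`B ^ (2 - κ) exp((√(24 κ) - u + o(1)) √(log B / log log B))`, for every real `u`: a shift of the threshold on the scale of the
second order term changes the number of the triples exactly by the factor of the shift. In other words, for a random triple with
`rad(abc) ≤ c^(3 - κ)` the deficiency `log (c^(3 - κ) / rad(abc))` is at least `u √(log B / log log B)` with probability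
`exp(-(u + o(1)) √(log B / log log B))`, `u ≥ 0`.
-/

set_option autoImplicit false

namespace Pool.Agent.Results.MP_4ab349_nt.ShiftedThreshold

open NumberField IsDedekindDomain Filter Topology

section

variable {K : Type} [Field K] [NumberField K]

/-- the absolute logarithmic height (`Height.logHeight₁` is relative to `K`) -/
noncomputable def height (x : K) : ℝ := Height.logHeight₁ x / (Module.finrank ℚ K : ℝ)

/-- the sum of `log N(v) / [K : ℚ]` over the primes `v` with `|x|_v < 1` (the logarithm of the radical of the numerator of `x`) -/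
noncomputable def cond (x : K) : ℝ :=
  (∑ᶠ (v : HeightOneSpectrum (𝓞 K)) (_ : FinitePlace.mk v x < 1),
    Real.log (Ideal.absNorm v.asIdeal : ℝ)) / (Module.finrank ℚ K : ℝ)

/-- `N(x)`, the logarithm of the radical of `a b c` for `x = a/c`, `1 - x = b/c` -/
noncomputable def total (x : K) : ℝ := cond x + cond x⁻¹ + cond (x - 1)

/-- the `x ≠ 0, 1` of height at most `B` with `|x - z_w|_w < η` for all infinite places `w` and
`N(x) ≤ (3 - κ) h(x) - u √(h(x) / log h(x)) + c₀` -/
def Points (z : InfinitePlace K → ℂ) (η κ u c₀ B : ℝ) : Set K :=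
  {x | x ≠ 0 ∧ x ≠ 1 ∧ Real.exp (height x) ≤ B ∧ (∀ w : InfinitePlace K, ‖w.embedding x - z w‖ < η) ∧
    total x ≤ (3 - κ) * height x - u * √(height x / Real.log (height x)) + c₀}

end

/-- **Theorem.** Let `K` be a number field of degree `d`, `z_w` a complex number for each infinite place `w` (real for real
`w`), `η > 0`, `0 < κ < 1`, `u` and `c₀` real. The number `V(B)` of the `x ∈ K`, `x ≠ 0, 1`, of height at most `B`, with
`|x - z_w|_w < η` for all `w` and `N(x) ≤ (3 - κ) h(x) - u √(h(x) / log h(x)) + c₀` is finite, and
`(log V(B) - d (2 - κ) log B) / √(log B / log log B)` tends to `√(24 κ d) - d u`. -/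
theorem result : ∀ (K : Type) [Field K] [NumberField K] (z : InfinitePlace K → ℂ) (η κ u c₀ : ℝ),
    (∀ w : InfinitePlace K, w.IsReal → (z w).im = 0) → 0 < η → 0 < κ → κ < 1 →
    (∀ B : ℝ, (Points z η κ u c₀ B).Finite) ∧
    Tendsto (fun B : ℝ => (Real.log ((Points z η κ u c₀ B).ncard : ℝ) -
        Module.finrank ℚ K * (2 - κ) * Real.log B) / √(Real.log B / Real.log (Real.log B))) atTop
      (𝓝 (√(24 * κ * Module.finrank ℚ K) - Module.finrank ℚ K * u)) := by
  intro K _ _ z η κ u c₀ hz hη h1 h2
  exact Pool.Agent.N906.LD.sh_limit z η κ c₀ u hz hη h1 h2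

end Pool.Agent.Results.MP_4ab349_nt.ShiftedThreshold
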