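import Pool.Agent.N671.DA.Win
import Pool.Agent.Y854.AB.Count

/-!
# `T(a, b, c)` is negative for all the abc-triples with a member near functions of the denominators of good approximations

Let `α_1, …, α_m` be real numbers. We consider the natural numbers `q` with `‖q α_j - β_j‖ ≤ c q^(-τ)` for all `j`, `‖x‖` the
distance to the nearest integer; for `β = 0`, `c = 1`, `τ = 1 / m` these include the denominators of all best simultaneous
approximations (the denominators of the convergents for `m = 1`). They form a very sparse sequence, with gaps growing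
exponentially for almost all `α` if `τ = 1 / m`. We show: let `G` be a function with steps bounded below by a positive constant
and growth at most `v^d`, for example `α v^d`. For all `α` in `ℝ^m` outside a set of Hausdorff dimension at most
`(m + 15 d / 28 + κ) / (1 + τ)` and all `c'`, for all but finitely many such `q` EVERY abc-triple with `|c - G q| ≤ q^κ` has
`T(a, b, c) < 0`, that is `rad(abc) > c`. More generally `T(a, b, c) < - η √(log c) - K / √(log c)` for every `0 ≤ η < 7 / 9`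
and every `K`, that is `rad(abc) > e^K c^(1 + η)`, when `15 / 28` is replaced by an explicit exponent `f (η) < 1`. The same
holds for the triples with a member `n` in the window and `c ≤ n ^ A`, with `A f(η)` instead of `f (η)`. For `τ = 1 / m` the
bound for the dimension is less than `m` if `d A f(η) + κ < 1`; and so the statement holds for almost all `α`.

Proof. The `q` such that `G q` is near a member of an exceptional triple form a set with `O(X^(d A f(η) + κ + ε))` elements up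
to `X`, by the count used in the starting file `SequenceMembers` of this problem (`Y854.AB.Count`); and the `α` with
`‖q α_j - β_j‖ ≤ c q^(-τ)` for all `j` and infinitely many `q` of such a set are covered by few small cubes.
-/

set_option autoImplicit false

namespace Pool.Agent.Results.MP_4ab349_nt.SimultaneousApproximations

open Finset
open Pool.Agent.N671.DA (Solves Expanding expanding_pow approx_win_nat)

/-- the product of the primes dividing `n` -/
def rad (n : ℕ) : ℕ := ∏ p ∈ n.primeFactors, p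

/-- `T(a, b, c) = log (c / rad(abc)) / √(log c)` -/
noncomputable def T (a b c : ℕ) : ℝ :=
  Real.log ((c : ℝ) / (rad (a * b * c) : ℝ)) / Real.sqrt (Real.log c)

/-- increasing from `15 / 28` for `η = 0` to `1` for `η = 7 / 9`: equal to `5 (10 η + 9) / 84` for `η ≤ 1 / 2` and to
`(9 η + 8) / 15` for `η > 1 / 2` -/
noncomputable def f (η : ℝ) : ℝ := if η ≤ 1 / 2 then 5 * (10 * η + 9) / 84 else (9 * η + 8) / 15

/-- every abc-triple `(a, b, a + b)` with `a + b ≤ n ^ A` one of whose members is `n` satisfies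
`T(a, b, a + b) < - η √(log (a + b)) - K / √(log (a + b))` -/
def Good (A η K : ℝ) (n : ℕ) : Prop :=
  ∀ a b : ℕ, 0 < a → 0 < b → Nat.Coprime a b → (a = n ∨ b = n ∨ a + b = n) →
    ((a + b : ℕ) : ℝ) ≤ (n : ℝ) ^ A →
      T a b (a + b) < - η * Real.sqrt (Real.log ((a + b : ℕ) : ℝ)) - K / Real.sqrt (Real.log ((a + b : ℕ) : ℝ))

lemma Good.mono {A η K K' : ℝ} {n : ℕ} (h : Good A η K n) (hK : K' ≤ K) : Good A η K' n := by
  intro a b ha hb hab hmem hht
  have h1 := h a b ha hb hab hmem hht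
  have h2 : K' / Real.sqrt (Real.log ((a + b : ℕ) : ℝ)) ≤ K / Real.sqrt (Real.log ((a + b : ℕ) : ℝ)) :=
    div_le_div_of_nonneg_right hK (Real.sqrt_nonneg _)
  linarith

lemma Fx_eq (η : ℝ) (h0 : 0 ≤ η) (h1 : η < 7 / 9) : Pool.Agent.W221.ABC7.Fx (1 + η) = f η := by
  unfold Pool.Agent.W221.ABC7.Fx f
  rcases h0.eq_or_lt with h | h
  · subst h
    norm_num
  · rw [if_neg (show ¬ (1 + η ≤ 2 / 3) by linarith), if_neg (show ¬ (1 + η ≤ 1) by linarith)]
    by_cases h2 : η ≤ 1 / 2
    · rw [if_pos (show 1 + η ≤ 3 / 2 by linarith), if_pos h2]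
      ring
    · rw [if_neg (show ¬ (1 + η ≤ 3 / 2) by linarith), if_pos (show 1 + η ≤ 16 / 9 by linarith), if_neg h2]
      ring

lemma f_nonneg (η : ℝ) (h0 : 0 ≤ η) : 0 ≤ f η := by
  unfold f
  split_ifs <;> positivity

lemma rad_pos (n : ℕ) : 0 < rad n :=
  Finset.prod_pos fun _ hp => (Nat.prime_of_mem_primeFactors hp).pos

lemma good_of (A η K : ℝ) (m : ℕ) (h : m ∉ Pool.Agent.Y854.AB.Bad (Real.exp K) (1 + η) A) : Good A η K m := by
  intro a b ha hb hab hmem hht
  have hc2 : 2 ≤ a + b := by omega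
  have hc : (1 : ℝ) < ((a + b : ℕ) : ℝ) := by exact_mod_cast (by omega : 1 < a + b)
  have hc0 : (0 : ℝ) < ((a + b : ℕ) : ℝ) := by linarith
  have hl : 0 < Real.log ((a + b : ℕ) : ℝ) := Real.log_pos hc
  have hs : 0 < Real.sqrt (Real.log ((a + b : ℕ) : ℝ)) := Real.sqrt_pos.mpr hl
  have hr : (0 : ℝ) < (rad (a * b * (a + b)) : ℝ) := by exact_mod_cast rad_pos _
  have hbig : Real.exp K * ((a + b : ℕ) : ℝ) ^ (1 + η) < (rad (a * b * (a + b)) : ℝ) := by
    by_contra hcon
    push Not at hcon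
    exact h ⟨a, b, ha, hb, hab, hmem, hht, hcon⟩
  have h1 := Real.log_lt_log (by positivity) hbig
  rw [Real.log_mul (Real.exp_pos K).ne' (Real.rpow_pos_of_pos hc0 _).ne', Real.log_exp,
    Real.log_rpow hc0] at h1
  unfold T
  rw [Real.log_div hc0.ne' hr.ne', div_lt_iff₀ hs]
  have hss : Real.sqrt (Real.log ((a + b : ℕ) : ℝ)) * Real.sqrt (Real.log ((a + b : ℕ) : ℝ)) =
      Real.log ((a + b : ℕ) : ℝ) := Real.mul_self_sqrt hl.le
  have h2 : (-η * Real.sqrt (Real.log ((a + b : ℕ) : ℝ)) - K / Real.sqrt (Real.log ((a + b : ℕ) : ℝ))) *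
      Real.sqrt (Real.log ((a + b : ℕ) : ℝ)) = -η * Real.log ((a + b : ℕ) : ℝ) - K := by
    rw [sub_mul, div_mul_cancel₀ _ hs.ne', mul_assoc, hss]
  rw [h2]
  linarith

/-- **`T < 0` near the denominators of good approximations.** Let `G` have steps `≥ a > 0` and growth at most `v^d`. Let
`A ≥ 1`, `0 ≤ η < 7 / 9`, `0 ≤ κ ≤ 1`, `β` in `ℝ^m` and `τ > 0`. For all `α` in `ℝ^m` outside a set of Hausdorff dimension at
most `(m + d A f(η) + κ) / (1 + τ)` and all `K` and `c`, for all large `q` with `‖q α_j - β_j‖ ≤ c q^(-τ)` for all `j`, EVERY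
abc-triple with a member `n`, `|n - G q| ≤ q^κ`, whose largest member is at most `n ^ A`, satisfies
`T(a, b, a + b) < - η √(log (a + b)) - K / √(log (a + b))`. The functions `α v^d` with `α > 0`, `d ≥ 1` are examples of `G`. -/
theorem result :
    (∀ (G : ℕ → ℝ) (d : ℝ), Expanding G d → ∀ A η κ : ℝ, 1 ≤ A → 0 ≤ η → η < 7 / 9 → 0 ≤ κ → κ ≤ 1 →
      ∀ (m : ℕ) (β : Fin m → ℝ) (τ : ℝ), 0 < τ →
      ∃ E : Set (Fin m → ℝ), dimH E ≤ ENNReal.ofReal ((m + (d * (A * f η) + κ)) / (1 + τ)) ∧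
        ∀ α, α ∉ E → ∀ K c : ℝ, ∃ Q : ℕ, ∀ q : ℕ, Q ≤ q → Solves α β q (c * (q : ℝ) ^ (-τ)) →
          ∀ n : ℕ, |(n : ℝ) - G q| ≤ (q : ℝ) ^ κ → Good A η K n) ∧
    ∀ α d : ℝ, 0 < α → 1 ≤ d → Expanding (fun v => α * (v : ℝ) ^ d) d := by
  classical
  refine ⟨fun G d hG A η κ hA hη hη1 hκ hκ1 m β τ hτ => ?_, fun α d hα hd => expanding_pow hα hd⟩
  have hk : ∀ k : ℕ, ∃ E : Set (Fin m → ℝ), dimH E ≤ ENNReal.ofReal ((m + (d * (A * f η) + κ)) / (1 + τ)) ∧
      ∀ α, α ∉ E → ∀ c : ℝ, ∃ Q : ℕ, ∀ q : ℕ, Q ≤ q → Solves α β q (c * (q : ℝ) ^ (-τ)) →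
        ∀ n : ℕ, (n = 0 ∨ n ∈ Pool.Agent.Y854.AB.Bad (Real.exp (k : ℝ)) (1 + η) A) → ¬ |(n : ℝ) - G q| ≤ (q : ℝ) ^ κ := by
    intro k
    exact approx_win_nat (Pool.Agent.Y854.AB.Bad (Real.exp (k : ℝ)) (1 + η) A) hG (s := A * f η) (κ := κ)
      (mul_nonneg (by linarith) (f_nonneg η hη)) hκ hκ1 (fun ε hε => by
        obtain ⟨C, hC⟩ := Pool.Agent.Y854.AB.count (Real.exp (k : ℝ)) (1 + η) A (by linarith) (by linarith) ε hε
        refine ⟨C, fun X hX => ?_⟩
        have h2 := hC X hX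
        rw [Fx_eq η hη hη1] at h2
        exact h2) β hτ
  choose E hE hE2 using hk
  refine ⟨⋃ k, E k, ?_, fun α hα K c => ?_⟩
  · rw [dimH_iUnion]
    exact iSup_le hE
  · obtain ⟨k, hkK⟩ := exists_nat_ge K
    rw [Set.mem_iUnion, not_exists] at hα
    obtain ⟨Q, hQ⟩ := hE2 k α (hα k) c
    refine ⟨Q, fun q hq h1 n hn => ?_⟩
    refine Good.mono (good_of A η (k : ℝ) n fun h7 => ?_) hkK
    exact hQ q hq h1 n (Or.inr h7) hn

end Pool.Agent.Results.MP_4ab349_nt.SimultaneousApproximations
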